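import Pool.Agent.Helper57.BI.Defs

open MeasureTheory Complex Filter Topology

namespace Pool.Agent.Helper57.BI

theorem fourierCoeffOn_ee (f : ℝ → ℂ) (k : ℤ) :
    fourierCoeffOn (zero_lt_one : (0 : ℝ) < 1) f k = ∫ x in (0 : ℝ)..1, f x * ee (-(k * x)) := by
  rw [fourierCoeffOn_eq_integral]
  have h : ∀ x : ℝ, fourier (-k) (x : AddCircle ((1 : ℝ) - 0)) • f x = f x * ee (-(k * x)) := by
    intro x
    rw [fourier_coe_apply, smul_eq_mul, mul_comm]
    congr 1
    unfold ee
    congr 1
    push_cast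
    ring
  simp_rw [h]
  norm_num

theorem fourier_pw (f f' : ℝ → ℂ) (C : ℝ) (hf : Continuous f) (hper : ∀ x, f (x + 1) = f x)
    (hder : ∀ x ∈ Set.Ioo (0 : ℝ) 1, HasDerivWithinAt f (f' x) (Set.Ioi x) x)
    (hm : Measurable f') (hb : ∀ x, ‖f' x‖ ≤ C) :
    ∃ c : ℤ → ℂ, Summable c ∧ (∀ t : ℝ, f t = ∑' k : ℤ, c k * ee (k * t)) ∧
      (∀ k : ℤ, c k = ∫ x in (0 : ℝ)..1, f x * ee (-(k * x))) ∧
      HasSum (fun k : ℤ => (2 * Real.pi * k) ^ 2 * ‖c k‖ ^ 2) (∫ x in (0 : ℝ)..1, ‖f' x‖ ^ 2) := by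
  have hint : IntervalIntegrable f' volume 0 1 := by
    rw [intervalIntegrable_iff]
    exact Measure.integrableOn_of_bounded (M := C) (by simp) hm.aestronglyMeasurable
      (Filter.Eventually.of_forall hb)
  have hL2 : MemLp f' 2 (volume.restrict (Set.Ioc (0 : ℝ) 1)) :=
    MemLp.of_bound hm.aestronglyMeasurable C (Filter.Eventually.of_forall hb)
  have h01 : f 1 = f 0 := by have := hper 0; rwa [zero_add] at this
  set c : ℤ → ℂ := fun k => ∫ x in (0 : ℝ)..1, f x * ee (-(k * x)) with hc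
  set c' : ℤ → ℂ := fun k => ∫ x in (0 : ℝ)..1, f' x * ee (-(k * x)) with hc'
  have hpars : HasSum (fun k : ℤ => ‖c' k‖ ^ 2) (∫ x in (0 : ℝ)..1, ‖f' x‖ ^ 2) := by
    have h := hasSum_sq_fourierCoeffOn (zero_lt_one : (0 : ℝ) < 1) hL2
    simp_rw [fourierCoeffOn_ee] at h
    rw [sub_zero, inv_one, one_smul] at h
    exact h
  have hc0 : c' 0 = 0 := by
    have h := intervalIntegral.integral_eq_sub_of_hasDeriv_right (a := (0 : ℝ)) (b := 1) (f := f)
      (f' := f') hf.continuousOn (by
        intro x hx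
        rw [min_eq_left zero_le_one, max_eq_right zero_le_one] at hx
        exact hder x hx) hint
    rw [h01, sub_self] at h
    simp only [hc', Int.cast_zero, zero_mul, neg_zero, ee_zero, mul_one]
    exact h
  have hck : ∀ k : ℤ, k ≠ 0 → c k = c' k / (2 * Real.pi * Complex.I * k) := by
    intro k hk
    have h := fourierCoeffOn_of_hasDeriv_right (zero_lt_one : (0 : ℝ) < 1) hk (f := f) (f' := f')
      hf.continuousOn (by
        intro x hx
        rw [min_eq_left zero_le_one, max_eq_right zero_le_one] at hx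
        exact hder x hx) hint
    rw [fourierCoeffOn_ee, fourierCoeffOn_ee, h01, sub_self, mul_zero] at h
    have hk' : (k : ℂ) ≠ 0 := by exact_mod_cast hk
    have hpi : (Real.pi : ℂ) ≠ 0 := by exact_mod_cast Real.pi_ne_zero
    have hI := Complex.I_ne_zero
    simp only [hc, hc']
    rw [h]
    push_cast
    field_simp
    ring
  have hnorm : ∀ k : ℤ, (2 * Real.pi * k) ^ 2 * ‖c k‖ ^ 2 = ‖c' k‖ ^ 2 := by
    intro k
    by_cases hk : k = 0
    · subst hk
      rw [hc0]
      simp
    · rw [hck k hk, norm_div]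
      have hk' : (k : ℝ) ≠ 0 := by exact_mod_cast hk
      have e : ‖(2 * Real.pi * Complex.I * k : ℂ)‖ = |2 * Real.pi * k| := by
        rw [norm_mul, norm_mul, norm_mul, Complex.norm_I, Complex.norm_real, Complex.norm_intCast,
          abs_mul, abs_mul]
        simp
      have hpos : (2 * Real.pi * k : ℝ) ≠ 0 := by
        have := Real.pi_ne_zero
        positivity
      rw [e, div_pow, sq_abs]
      field_simp
  have hsumm : Summable c := by
    have h1 : Summable (fun k : ℤ => ‖c' k‖ ^ 2 + 1 / (k : ℝ) ^ 2) :=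
      hpars.summable.add (Real.summable_one_div_int_pow.mpr one_lt_two)
    have h2 : Summable (fun k : ℤ => if k = 0 then ‖c 0‖ else (0 : ℝ)) :=
      (hasSum_ite_eq (0 : ℤ) ‖c 0‖).summable
    refine Summable.of_norm_bounded (h2.add h1) ?_
    intro k
    by_cases hk : k = 0
    · subst hk
      rw [if_pos rfl]
      have : (0 : ℝ) ≤ ‖c' 0‖ ^ 2 + 1 / ((0 : ℤ) : ℝ) ^ 2 := by positivity
      linarith
    · rw [if_neg hk, zero_add, hck k hk, norm_div]
      have e : ‖(2 * Real.pi * Complex.I * k : ℂ)‖ = 2 * Real.pi * |(k : ℝ)| := by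
        rw [norm_mul, norm_mul, norm_mul, Complex.norm_I, Complex.norm_real, Complex.norm_intCast]
        simp [abs_of_pos Real.pi_pos]
      rw [e]
      have hk1 : (0 : ℝ) < |(k : ℝ)| := abs_pos.mpr (by exact_mod_cast hk)
      have hpi := Real.pi_gt_three
      have h3 : ‖c' k‖ / (2 * Real.pi * |(k : ℝ)|) ≤ ‖c' k‖ / |(k : ℝ)| := by
        apply div_le_div_of_nonneg_left (norm_nonneg _) hk1
        nlinarith
      refine le_trans h3 ?_
      rw [← sq_abs (k : ℝ), ← one_div_pow, div_eq_mul_one_div]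
      nlinarith [sq_nonneg (‖c' k‖ - 1 / |(k : ℝ)|), sq_nonneg (‖c' k‖ + 1 / |(k : ℝ)|)]
  refine ⟨c, hsumm, ?_, fun k => rfl, ?_⟩
  · intro t
    have hper' : Function.Periodic f 1 := hper
    set F : C(AddCircle (1 : ℝ), ℂ) := ⟨hper'.lift, continuous_coinduced_dom.mpr hf⟩ with hF
    have hFc : ∀ k, fourierCoeff F k = c k := by
      intro k
      rw [fourierCoeff_eq_intervalIntegral F k 0, zero_add, div_one, one_smul]
      apply intervalIntegral.integral_congr
      intro x _
      dsimp only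
      have : (F : AddCircle (1 : ℝ) → ℂ) (x : AddCircle (1 : ℝ)) = f x := rfl
      rw [this, fourier_eq_ee, smul_eq_mul, mul_comm]
      congr 2
      push_cast
      ring
    have h := has_pointwise_sum_fourier_series_of_summable (f := F) (by
      have : fourierCoeff F = c := funext hFc
      rw [this]; exact hsumm) (t : AddCircle (1 : ℝ))
    simp_rw [hFc, fourier_eq_ee, smul_eq_mul] at h
    exact h.tsum_eq.symm
  · simp_rw [hnorm]
    exact hpars

end Pool.Agent.Helper57.BI
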