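import Pool.Agent.Helper57.BI.Sym
import Pool.Agent.Helper57.BI.FourierPw
import Pool.Agent.Helper16.BI.Kernel
import Pool.Agent.Helper94.BI.BLMul
import Pool.Agent.Helper81.BI.BLAvg
import Pool.Agent.Helper22.BI.InterpOf
import Pool.Agent.Helper65.BI.FKLOf
import Pool.Agent.Helper68.BI.TransferAux

open MeasureTheory Complex Filter Topology
open scoped ENNReal

namespace Pool.Agent.Helper57.BI

theorem BL_mul {r r' r'' : ℝ} (hr : 0 ≤ r) (hr' : 0 < r') (h : r + r' < r'') (h'' : r'' < 1 / 2)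
    {φ γ : ℤ → ℂ} (hφ : ∃ C, ∀ n, ‖φ n‖ ≤ C) (hγ : ∃ C, ∀ n, ‖γ n‖ ≤ C)
    (h1 : BL r φ) (h2 : BL r' γ) : BL r'' (fun n => φ n * γ n) :=
  BL_mul_of (fun ha h l => sym_inj ha h l) (fun h0 h1 h2 => exists_kernel h0 h1 h2) hr hr' h h''
    hφ hγ h1 h2

theorem trig_interp (H : ℕ) (hH : 0 < H) (u : ℤ → ℝ) (hu : ∀ i, u (i + H) = u i) (c : ℝ)
    (hc : 0 < c) (hc' : ∀ i, |u (i + 1) - u i| ≤ c) :
    ∃ (m : ℕ) (b : ℤ → ℂ), (∀ k, b (-k) = (starRingEnd ℂ) (b k)) ∧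
      ∑ k ∈ Finset.Icc (-(m : ℤ)) m, (2 * Real.pi * k) ^ 2 * ‖b k‖ ^ 2 ≤ (c * H) ^ 2 ∧
      ∀ (i : ℤ) (t : ℝ), (i : ℝ) / H ≤ t → t ≤ (i + 1) / H →
        |(∑ k ∈ Finset.Icc (-(m : ℤ)) m, b k * ee (k * t)).re - u i| ≤ 2 * c :=
  trig_interp_of fourier_pw H hH u hu c hc hc'

theorem FKL (d : ℝ) (hd : 0 < d) (hd' : d < 1 / 2) :
    ∃ C : ℝ, 1 ≤ C ∧ ∀ ε : ℝ, 0 < ε → ∃ τ : ℝ, 0 < τ ∧ ∃ H0 : ℕ, ∀ H : ℕ, H0 ≤ H →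
      ∀ v : ℤ → ℝ, (∀ i, v (i + H) = v i) →
      ∑ i ∈ Finset.range H, |v ((i : ℤ) + 1) - v i| ≤ τ * H →
      ∃ G : ℤ → ℝ, BL d (fun i => (G i : ℂ)) ∧ (∀ i, 0 ≤ G i) ∧
        (∀ i, Real.exp (-(v i)) * G i ≤ C) ∧
        ∑ i ∈ Finset.range H, |Real.exp (-(v i)) * G i - 1| ≤ ε * H :=
  FKL_of trig_interp d hd hd'

theorem transfer (d : ℝ) (hd : 0 < d) (hd' : d < 1 / 2) :
    ∃ C : ℝ, 1 ≤ C ∧ ∀ ε : ℝ, 0 < ε → ∃ τ : ℝ, 0 < τ ∧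
      ∀ (X : Type) [MeasurableSpace X] (μ : Measure X) [IsProbabilityMeasure μ]
        (T : Equiv.Perm X), MeasurePreserving T μ μ → MeasurePreserving T.symm μ μ →
      ∀ V : X → ℝ, Measurable V → (∃ K, ∀ x, |V x| ≤ K) → ∫ x, |V (T x) - V x| ∂μ ≤ τ →
      ∃ G : X → ℝ, Measurable G ∧ (∃ K, ∀ x, |G x| ≤ K) ∧
        (∀ x, BL d (fun n : ℤ => (G ((T ^ n) x) : ℂ))) ∧
        (∀ x, |Real.exp (-(V x)) * G x| ≤ C) ∧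
        ∫ x, |Real.exp (-(V x)) * G x - 1| ∂μ ≤ ε :=
  transfer_aux (fun h0 h1 h2 => exists_kernel h0 h1 h2)
    (fun ha hs _ hφ => BL_avg ha hs hφ) FKL d hd hd'

end Pool.Agent.Helper57.BI
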