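import Pool.Agent.Helper57.BI.Defs
import Pool.Agent.Helper26.BI.TwoSub
import Pool.Agent.Helper67.BI.Hardy
import Pool.Agent.Helper67.BI.SqDeriv

open MeasureTheory Complex Filter Topology
open scoped ENNReal ComplexConjugate

namespace Pool.Agent.Helper57.BI

namespace CompA

/-- abbreviation -/
abbrev 𝕋 := AddCircle (1 : ℝ)

/-- `V = Σ c_k e_k` as a continuous function on the circle. -/
noncomputable def VV (m : ℕ) (c : ℤ → ℂ) : C(𝕋, ℂ) :=
  ∑ k ∈ Finset.Icc (-(m : ℤ)) m, c k • (fourier k : C(𝕋, ℂ))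

/-- `U = Σ sgn(k) c_k e_k`. -/
noncomputable def UU (m : ℕ) (c : ℤ → ℂ) : C(𝕋, ℂ) :=
  ∑ k ∈ Finset.Icc (-(m : ℤ)) m, ((Int.sign k : ℤ) * c k : ℂ) • (fourier k : C(𝕋, ℂ))

/-- coefficients of `V + U`. -/
noncomputable def bb (c : ℤ → ℂ) (k : ℕ) : ℂ := if k = 0 then c 0 else 2 * c k

theorem conj_VV {m : ℕ} {c : ℤ → ℂ} (hc : ∀ k, c (-k) = conj (c k)) (x : 𝕋) :
    conj (VV m c x) = VV m c x := by
  unfold VV
  rw [ContinuousMap.coe_sum, Finset.sum_apply, map_sum]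
  refine Finset.sum_bij' (fun k _ => -k) (fun k _ => -k) ?_ ?_ ?_ ?_ ?_
  · intro k hk; rw [Finset.mem_Icc] at hk ⊢; constructor <;> omega
  · intro k hk; rw [Finset.mem_Icc] at hk ⊢; constructor <;> omega
  · intro k hk; exact neg_neg k
  · intro k hk; exact neg_neg k
  · intro k hk
    rw [ContinuousMap.coe_smul, Pi.smul_apply, ContinuousMap.coe_smul, Pi.smul_apply, smul_eq_mul,
      smul_eq_mul, map_mul, hc, fourier_neg]

theorem conj_UU {m : ℕ} {c : ℤ → ℂ} (hc : ∀ k, c (-k) = conj (c k)) (x : 𝕋) :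
    conj (UU m c x) = - UU m c x := by
  unfold UU
  rw [ContinuousMap.coe_sum, Finset.sum_apply, map_sum, ← Finset.sum_neg_distrib]
  refine Finset.sum_bij' (fun k _ => -k) (fun k _ => -k) ?_ ?_ ?_ ?_ ?_
  · intro k hk; rw [Finset.mem_Icc] at hk ⊢; constructor <;> omega
  · intro k hk; rw [Finset.mem_Icc] at hk ⊢; constructor <;> omega
  · intro k hk; exact neg_neg k
  · intro k hk; exact neg_neg k
  · intro k hk
    rw [ContinuousMap.coe_smul, Pi.smul_apply, ContinuousMap.coe_smul, Pi.smul_apply, smul_eq_mul,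
      smul_eq_mul, map_mul, map_mul, hc, fourier_neg, Int.sign_neg]
    have : conj ((Int.sign k : ℤ) : ℂ) = ((Int.sign k : ℤ) : ℂ) := by simp
    rw [this]
    push_cast
    ring

theorem VV_add_UU {m : ℕ} {c : ℤ → ℂ} (x : 𝕋) :
    VV m c x + UU m c x = ∑ k ∈ Finset.range (m + 1), bb c k * (fourier (k : ℤ) x : ℂ) := by
  have h1 : VV m c x + UU m c x = ∑ k ∈ Finset.Icc (-(m : ℤ)) m,
      (1 + (Int.sign k : ℤ) : ℂ) * c k * (fourier k x : ℂ) := by
    unfold VV UU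
    rw [ContinuousMap.coe_sum, Finset.sum_apply, ContinuousMap.coe_sum, Finset.sum_apply,
      ← Finset.sum_add_distrib]
    apply Finset.sum_congr rfl
    intro k _
    rw [ContinuousMap.coe_smul, Pi.smul_apply, ContinuousMap.coe_smul, Pi.smul_apply, smul_eq_mul,
      smul_eq_mul]
    ring
  rw [h1]
  have h2 : ∑ k ∈ Finset.Icc (0 : ℤ) m,
      (1 + (Int.sign k : ℤ) : ℂ) * c k * (fourier k x : ℂ) = ∑ k ∈ Finset.Icc (-(m : ℤ)) m,
      (1 + (Int.sign k : ℤ) : ℂ) * c k * (fourier k x : ℂ) := by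
    apply Finset.sum_subset
    · intro k hk
      rw [Finset.mem_Icc] at hk ⊢
      constructor <;> omega
    · intro k hk hk2
      rw [Finset.mem_Icc] at hk hk2
      have : k < 0 := by omega
      rw [Int.sign_eq_neg_one_of_neg this]
      simp
  rw [← h2]
  symm
  refine Finset.sum_bij' (fun (k : ℕ) _ => (k : ℤ)) (fun (k : ℤ) _ => k.toNat) ?_ ?_ ?_ ?_ ?_
  · intro k hk; rw [Finset.mem_range] at hk; rw [Finset.mem_Icc]; constructor <;> omega
  · intro k hk; rw [Finset.mem_Icc] at hk; rw [Finset.mem_range]; omega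
  · intro k hk; simp
  · intro k hk; rw [Finset.mem_Icc] at hk; simp; omega
  · intro k hk
    unfold bb
    by_cases h0 : k = 0
    · subst h0; simp
    · rw [if_neg h0]
      have : Int.sign (k : ℤ) = 1 := Int.sign_eq_one_of_pos (by omega)
      rw [this]
      push_cast
      ring

/-- derivative of `U`. -/
noncomputable def UD (m : ℕ) (c : ℤ → ℂ) : C(𝕋, ℂ) :=
  ∑ k ∈ Finset.Icc (-(m : ℤ)) m, (2 * Real.pi * Complex.I * k * ((Int.sign k : ℤ) * c k) : ℂ) •
    (fourier k : C(𝕋, ℂ))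

theorem UU_apply (m : ℕ) (c : ℤ → ℂ) (x : 𝕋) : UU m c x =
    ∑ k ∈ Finset.Icc (-(m : ℤ)) m, ((Int.sign k : ℤ) * c k : ℂ) * (fourier k x : ℂ) := by
  unfold UU
  rw [ContinuousMap.coe_sum, Finset.sum_apply]
  rfl

theorem UD_apply (m : ℕ) (c : ℤ → ℂ) (x : 𝕋) : UD m c x =
    ∑ k ∈ Finset.Icc (-(m : ℤ)) m, (2 * Real.pi * Complex.I * k * ((Int.sign k : ℤ) * c k) : ℂ) *
      (fourier k x : ℂ) := by
  unfold UD
  rw [ContinuousMap.coe_sum, Finset.sum_apply]
  rfl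

theorem hasDerivAt_UU (m : ℕ) (c : ℤ → ℂ) (t : ℝ) :
    HasDerivAt (fun t : ℝ => UU m c (t : 𝕋)) (UD m c (t : 𝕋)) t := by
  simp_rw [UU_apply, UD_apply]
  apply HasDerivAt.fun_sum
  intro k _
  have h := (hasDerivAt_fourier (1 : ℝ) k t).const_mul ((Int.sign k : ℤ) * c k : ℂ)
  have e : (2 * Real.pi * Complex.I * k * ((Int.sign k : ℤ) * c k) : ℂ) * (fourier k (t : 𝕋) : ℂ) =
      ((Int.sign k : ℤ) * c k : ℂ) *
        (2 * Real.pi * Complex.I * k / ((1 : ℝ) : ℂ) * (fourier k (t : 𝕋) : ℂ)) := by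
    rw [Complex.ofReal_one, div_one]
    ring
  rw [e]
  exact h

/-- `exp(a U)`. -/
noncomputable def EE (m : ℕ) (c : ℤ → ℂ) (a : ℝ) : C(𝕋, ℂ) :=
  ⟨fun x => Complex.exp (a * UU m c x), by fun_prop⟩

noncomputable def ED (m : ℕ) (c : ℤ → ℂ) (a : ℝ) : C(𝕋, ℂ) :=
  ⟨fun x => Complex.exp (a * UU m c x) * (a * UD m c x), by fun_prop⟩

theorem hasDerivAt_EE (m : ℕ) (c : ℤ → ℂ) (a : ℝ) (t : ℝ) :
    HasDerivAt (fun t : ℝ => EE m c a (t : 𝕋)) (ED m c a (t : 𝕋)) t :=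
  ((hasDerivAt_UU m c t).const_mul (a : ℂ)).cexp

theorem norm_EE {m : ℕ} {c : ℤ → ℂ} (hc : ∀ k, c (-k) = conj (c k)) (a : ℝ) (x : 𝕋) :
    ‖EE m c a x‖ = 1 := by
  change ‖Complex.exp (a * UU m c x)‖ = 1
  rw [Complex.norm_exp]
  have h := conj_UU hc (m := m) x
  have h2 : (UU m c x).re = 0 := by
    have := congrArg Complex.re h
    rw [Complex.conj_re, Complex.neg_re] at this
    linarith
  rw [Complex.re_ofReal_mul, h2, mul_zero, Real.exp_zero]

theorem fourierCoeff_UU (m : ℕ) (c : ℤ → ℂ) (l : ℤ) : fourierCoeff (UU m c) l =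
    if l ∈ Finset.Icc (-(m : ℤ)) m then ((Int.sign l : ℤ) * c l : ℂ) else 0 := by
  have h1 : (UU m c : 𝕋 → ℂ) = ∑ k ∈ Finset.Icc (-(m : ℤ)) m,
      (((Int.sign k : ℤ) * c k : ℂ) • (fourier k : 𝕋 → ℂ)) := by
    unfold UU
    rw [ContinuousMap.coe_sum]
    rfl
  rw [h1, fourierCoeff.sum]
  · rw [Finset.sum_apply]
    simp_rw [fourierCoeff.const_smul, fourierCoeff_fourier, Pi.single_apply, smul_eq_mul, mul_ite,
      mul_one, mul_zero]
    rw [Finset.sum_ite_eq]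
  · intro k _
    exact ((fourier k).continuous.integrable_of_hasCompactSupport
      (HasCompactSupport.of_compactSpace _)).smul _

theorem int_UD {m : ℕ} {c : ℤ → ℂ} :
    ∫ t : 𝕋, ‖UD m c t‖ ^ 2 ∂AddCircle.haarAddCircle =
      ∑ k ∈ Finset.Icc (-(m : ℤ)) m, (2 * Real.pi * k) ^ 2 * ‖c k‖ ^ 2 := by
  have h1 := sum_sq_deriv (UU m c) (UD m c) (hasDerivAt_UU m c)
  have h2 : HasSum (fun l : ℤ => (2 * Real.pi * l) ^ 2 * ‖fourierCoeff (UU m c) l‖ ^ 2)
      (∑ k ∈ Finset.Icc (-(m : ℤ)) m, (2 * Real.pi * k) ^ 2 * ‖c k‖ ^ 2) := by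
    have h3 : ∑ k ∈ Finset.Icc (-(m : ℤ)) m, (2 * Real.pi * k) ^ 2 * ‖c k‖ ^ 2 =
        ∑ l ∈ Finset.Icc (-(m : ℤ)) m, (2 * Real.pi * l) ^ 2 * ‖fourierCoeff (UU m c) l‖ ^ 2 := by
      apply Finset.sum_congr rfl
      intro k hk
      rw [fourierCoeff_UU, if_pos hk]
      by_cases h0 : k = 0
      · subst h0; simp
      · rw [norm_mul]
        have : ‖((Int.sign k : ℤ) : ℂ)‖ = 1 := by
          rcases lt_or_gt_of_ne h0 with h | h
          · rw [Int.sign_eq_neg_one_of_neg h]; simp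
          · rw [Int.sign_eq_one_of_pos h]; simp
        rw [this, one_mul]
    rw [h3]
    apply hasSum_sum_of_ne_finset_zero
    intro l hl
    rw [fourierCoeff_UU, if_neg hl]
    simp
  exact h1.unique h2

theorem sum_EE {m : ℕ} {c : ℤ → ℂ} (hc : ∀ k, c (-k) = conj (c k)) (a : ℝ) :
    HasSum (fun l : ℤ => (2 * Real.pi * l) ^ 2 * ‖fourierCoeff (EE m c a) l‖ ^ 2)
      (a ^ 2 * ∑ k ∈ Finset.Icc (-(m : ℤ)) m, (2 * Real.pi * k) ^ 2 * ‖c k‖ ^ 2) := by
  have h1 := sum_sq_deriv (EE m c a) (ED m c a) (hasDerivAt_EE m c a)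
  convert h1 using 1
  rw [← int_UD, ← integral_const_mul]
  apply integral_congr_ae
  filter_upwards with x
  have : ED m c a x = EE m c a x * (a * UD m c x) := rfl
  rw [this, norm_mul, norm_EE hc, one_mul, norm_mul, mul_pow, Complex.norm_real, Real.norm_eq_abs,
    sq_abs]

/-! ### inner products -/

/-- the class in `L^2` of a continuous function. -/
noncomputable def toL (f : C(𝕋, ℂ)) : Lp ℂ 2 (AddCircle.haarAddCircle : Measure 𝕋) :=
  ContinuousMap.toLp (E := ℂ) 2 AddCircle.haarAddCircle ℂ f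

theorem inner_toL_left (f : C(𝕋, ℂ)) (y : Lp ℂ 2 (AddCircle.haarAddCircle : Measure 𝕋)) :
    inner ℂ (toL f) y = ∫ x, conj (f x) * y x ∂AddCircle.haarAddCircle := by
  rw [MeasureTheory.L2.inner_def]
  apply integral_congr_ae
  filter_upwards [ContinuousMap.coeFn_toLp (p := 2) (𝕜 := ℂ)
    (AddCircle.haarAddCircle : Measure 𝕋) f] with x hx
  change inner ℂ ((ContinuousMap.toLp (E := ℂ) 2 AddCircle.haarAddCircle ℂ f) x) (y x) = _
  rw [hx, RCLike.inner_apply']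

theorem conj_EE {m : ℕ} {c : ℤ → ℂ} (hc : ∀ k, c (-k) = conj (c k)) (a : ℝ) (x : 𝕋) :
    conj (EE m c a x) = EE m c (-a) x := by
  change conj (Complex.exp (a * UU m c x)) = Complex.exp ((-a : ℝ) * UU m c x)
  rw [← Complex.exp_conj, map_mul, conj_UU hc, Complex.conj_ofReal]
  congr 1
  push_cast
  ring

theorem EE_mul (m : ℕ) (c : ℤ → ℂ) (a b : ℝ) (x : 𝕋) :
    EE m c a x * EE m c b x = EE m c (a + b) x := by
  change Complex.exp (a * UU m c x) * Complex.exp (b * UU m c x) =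
    Complex.exp ((a + b : ℝ) * UU m c x)
  rw [← Complex.exp_add]
  congr 1
  push_cast
  ring

theorem EE_zero (m : ℕ) (c : ℤ → ℂ) (x : 𝕋) : EE m c 0 x = 1 := by
  change Complex.exp ((0 : ℝ) * UU m c x) = 1
  rw [Complex.ofReal_zero, zero_mul, Complex.exp_zero]

/-- the modulated exponentials. -/
noncomputable def FF (m : ℕ) (c : ℤ → ℂ) (a : ℝ) (i : ℤ) : C(𝕋, ℂ) := EE m c a * fourier i

theorem FF_apply (m : ℕ) (c : ℤ → ℂ) (a : ℝ) (i : ℤ) (x : 𝕋) :
    FF m c a i x = EE m c a x * (fourier i x : ℂ) := rfl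

theorem inner_FF_left {m : ℕ} {c : ℤ → ℂ} (hc : ∀ k, c (-k) = conj (c k)) (a : ℝ) (i : ℤ)
    (y : Lp ℂ 2 (AddCircle.haarAddCircle : Measure 𝕋)) :
    inner ℂ (toL (FF m c a i)) y = fourierCoeff (fun x => EE m c (-a) x * y x) i := by
  rw [inner_toL_left, fourierCoeff]
  apply integral_congr_ae
  filter_upwards with x
  rw [FF_apply, map_mul, conj_EE hc, ← fourier_neg, smul_eq_mul]
  ring

theorem inner_FF {m : ℕ} {c : ℤ → ℂ} (hc : ∀ k, c (-k) = conj (c k)) (a b : ℝ) (i j : ℤ) :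
    inner ℂ (toL (FF m c a i)) (toL (FF m c b j)) = fourierCoeff (EE m c (b - a)) (i - j) := by
  rw [toL, toL, ContinuousMap.inner_toLp, fourierCoeff]
  apply integral_congr_ae
  filter_upwards with x
  rw [FF_apply, FF_apply, map_mul, conj_EE hc, ← fourier_neg, smul_eq_mul]
  have h1 : (fourier (-(i - j)) x : ℂ) = fourier j x * fourier (-i) x := by
    rw [← fourier_add]; congr 2; ring
  have h2 : EE m c (b - a) x = EE m c b x * EE m c (-a) x := by
    rw [EE_mul]; rfl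
  rw [h1, h2]
  ring

theorem fourierCoeff_EE_zero (m : ℕ) (c : ℤ → ℂ) (l : ℤ) :
    fourierCoeff (EE m c 0) l = if l = 0 then 1 else 0 := by
  have h : (EE m c 0 : 𝕋 → ℂ) = (fourier 0 : 𝕋 → ℂ) := by
    funext x
    rw [EE_zero, fourier_zero]
  rw [h, fourierCoeff_fourier, Pi.single_apply]

theorem orthonormal_FF {m : ℕ} {c : ℤ → ℂ} (hc : ∀ k, c (-k) = conj (c k)) (a : ℝ) :
    Orthonormal ℂ (fun i : ℤ => toL (FF m c a i)) := by
  rw [orthonormal_iff_ite]
  intro i j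
  rw [inner_FF hc, sub_self, fourierCoeff_EE_zero]
  by_cases h : i = j
  · subst h; simp
  · rw [if_neg (by omega), if_neg h]

/-! ### bounds for the traces -/

theorem tail_bound {φ : ℤ → ℝ} (h0 : ∀ l, 0 ≤ φ l) {S : ℝ}
    (hS : HasSum (fun l : ℤ => (2 * Real.pi * l) ^ 2 * φ l) S) {ι : Type} (I : Finset ι)
    (f : ι → ℤ) (hf : Function.Injective f) {R : ℝ} (hR : 0 < R) (h : ∀ i ∈ I, R ≤ |(f i : ℝ)|) :
    ∑ i ∈ I, φ (f i) ≤ S / (2 * Real.pi * R) ^ 2 := by
  have hp : 0 < Real.pi := Real.pi_pos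
  rw [le_div_iff₀ (by positivity), Finset.sum_mul]
  calc ∑ i ∈ I, φ (f i) * (2 * Real.pi * R) ^ 2
      ≤ ∑ i ∈ I, (2 * Real.pi * (f i : ℝ)) ^ 2 * φ (f i) := by
        apply Finset.sum_le_sum
        intro i hi
        rw [mul_comm]
        apply mul_le_mul_of_nonneg_right _ (h0 _)
        rw [mul_pow, mul_pow (2 * Real.pi)]
        apply mul_le_mul_of_nonneg_left _ (by positivity)
        rw [← sq_abs (f i : ℝ)]
        exact pow_le_pow_left₀ hR.le (h i hi) 2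
    _ = ∑ l ∈ I.map ⟨f, hf⟩, (2 * Real.pi * (l : ℝ)) ^ 2 * φ l := by
        rw [Finset.sum_map]; rfl
    _ ≤ S := sum_le_hasSum _ (fun l _ => mul_nonneg (sq_nonneg _) (h0 l)) hS

theorem pair_bound {φ : ℤ → ℝ} (h0 : ∀ l, 0 ≤ φ l) {S : ℝ}
    (hS : HasSum (fun l : ℤ => (2 * Real.pi * l) ^ 2 * φ l) S) (N : ℕ)
    (I : Finset {j : ℤ // j < -(N : ℤ)}) (J : Finset {j : ℤ // (N : ℤ) < j}) :
    ∑ i ∈ I, ∑ j ∈ J, φ ((i : ℤ) - (j : ℤ)) ≤ S / ((2 * Real.pi) ^ 2 * (2 * N + 2)) := by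
  classical
  have hp : 0 < Real.pi := Real.pi_pos
  rw [← Finset.sum_product' (s := I) (t := J) (f := fun i j => φ ((i : ℤ) - (j : ℤ)))]
  rw [Finset.sum_comp φ (fun p : {j : ℤ // j < -(N : ℤ)} × {j : ℤ // (N : ℤ) < j} =>
    ((p.1 : ℤ) - (p.2 : ℤ)))]
  rw [le_div_iff₀ (by positivity), Finset.sum_mul]
  refine le_trans (Finset.sum_le_sum (g := fun l : ℤ => (2 * Real.pi * (l : ℝ)) ^ 2 * φ l) ?_)
    (sum_le_hasSum _ (fun l _ => mul_nonneg (sq_nonneg _) (h0 l)) hS)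
  intro l hl
  rw [Finset.mem_image] at hl
  obtain ⟨⟨i0, j0⟩, _, hl0⟩ := hl
  have hl2 : l ≤ -(2 * (N : ℤ) + 2) := by
    have := i0.2
    have := j0.2
    dsimp only at hl0
    omega
  have hcard : (Finset.filter (fun p : {j : ℤ // j < -(N : ℤ)} × {j : ℤ // (N : ℤ) < j} =>
      (p.1 : ℤ) - (p.2 : ℤ) = l) (I ×ˢ J)).card ≤ (Finset.Ioo l 0).card := by
    apply Finset.card_le_card_of_injOn (fun p => (p.1 : ℤ))
    · intro p hp
      simp only [Finset.coe_filter, Set.mem_ofPred_eq] at hp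
      have h1 := p.1.2
      have h2 := p.2.2
      simp only [Finset.coe_Ioo, Set.mem_Ioo]
      omega
    · intro p hp q hq hpq
      simp only [Finset.coe_filter, Set.mem_ofPred_eq] at hp hq
      dsimp only at hpq
      have h1 : p.1 = q.1 := Subtype.ext hpq
      have h2 : p.2 = q.2 := Subtype.ext (by omega)
      exact Prod.ext h1 h2
  rw [Int.card_Ioo] at hcard
  have hcard2 : ((Finset.filter (fun p : {j : ℤ // j < -(N : ℤ)} × {j : ℤ // (N : ℤ) < j} =>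
      (p.1 : ℤ) - (p.2 : ℤ) = l) (I ×ˢ J)).card : ℝ) ≤ -(l : ℝ) := by
    have h3 : ((Finset.filter (fun p : {j : ℤ // j < -(N : ℤ)} × {j : ℤ // (N : ℤ) < j} =>
      (p.1 : ℤ) - (p.2 : ℤ) = l) (I ×ˢ J)).card : ℤ) ≤ -l := by omega
    exact_mod_cast h3
  rw [nsmul_eq_mul]
  have hlr : (l : ℝ) ≤ -(2 * (N : ℝ) + 2) := by exact_mod_cast hl2
  have hN0 : (0 : ℝ) ≤ N := Nat.cast_nonneg N
  calc _ ≤ (-(l : ℝ)) * φ l * ((2 * Real.pi) ^ 2 * (2 * N + 2)) := by
        apply mul_le_mul_of_nonneg_right _ (by positivity)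
        exact mul_le_mul_of_nonneg_right hcard2 (h0 l)
    _ = (2 * Real.pi) ^ 2 * φ l * ((-(l : ℝ)) * (2 * N + 2)) := by ring
    _ ≤ (2 * Real.pi) ^ 2 * φ l * ((-(l : ℝ)) * (-(l : ℝ))) := by
        apply mul_le_mul_of_nonneg_left _ (mul_nonneg (sq_nonneg _) (h0 l))
        apply mul_le_mul_of_nonneg_left _ (by linarith)
        linarith
    _ = (2 * Real.pi * (l : ℝ)) ^ 2 * φ l := by ring

/-! ### choice of a good vector -/

theorem exists_good {m : ℕ} {c : ℤ → ℂ} (hc : ∀ k, c (-k) = conj (c k)) (N : ℕ) (hN : 1 ≤ N) :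
    ∃ (k : ℤ) (y : Lp ℂ 2 (AddCircle.haarAddCircle : Measure 𝕋)), |k| ≤ ((N / 2 : ℕ) : ℤ) ∧
      (∀ i : ℤ, i < -(N : ℤ) → fourierCoeff (fun x => EE m c (-1) x * y x) i = 0) ∧
      (∀ i : ℤ, (N : ℤ) < i → fourierCoeff (fun x => EE m c 1 x * y x) i = 0) ∧
      ‖toL (FF m c 0 k) - y‖ ^ 2 ≤
        (∑ k ∈ Finset.Icc (-(m : ℤ)) m, (2 * Real.pi * k) ^ 2 * ‖c k‖ ^ 2) / (N : ℝ) ^ 2 := by
  set D := ∑ k ∈ Finset.Icc (-(m : ℤ)) m, (2 * Real.pi * k) ^ 2 * ‖c k‖ ^ 2 with hD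
  have hp : 0 < Real.pi := Real.pi_pos
  have hD0 : 0 ≤ D := Finset.sum_nonneg fun k _ => by positivity
  set M : ℕ := N / 2 with hM
  have hNr : (1 : ℝ) ≤ N := by exact_mod_cast hN
  have hMN : (M : ℝ) ≤ N / 2 := by
    have : 2 * M ≤ N := by omega
    have : (2 * M : ℝ) ≤ N := by exact_mod_cast this
    linarith
  have hMN2 : (N : ℝ) ≤ 2 * M + 1 := by
    have : N ≤ 2 * M + 1 := by omega
    exact_mod_cast this
  set R : ℝ := (N : ℝ) - M + 1 with hR
  have hR0 : 0 < R := by rw [hR]; linarith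
  have hR1 : (N : ℝ) / 2 ≤ R := by rw [hR]; linarith
  have hK : (Finset.Icc (-(M : ℤ)) M).card = 2 * M + 1 := by
    rw [Int.card_Icc]; omega
  obtain ⟨y, hy1, hy2, hy3⟩ := two_subspaces
    (fun i : {j : ℤ // j < -(N : ℤ)} => toL (FF m c 1 i))
    (fun i : {j : ℤ // (N : ℤ) < j} => toL (FF m c (-1) i))
    (fun i : ℤ => toL (FF m c 0 i))
    ((orthonormal_FF hc 1).comp _ Subtype.val_injective)
    ((orthonormal_FF hc (-1)).comp _ Subtype.val_injective)
    (orthonormal_FF hc 0) (Finset.Icc (-(M : ℤ)) M)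
    ((4 * D) / ((2 * Real.pi) ^ 2 * (2 * N + 2)))
    ((2 * M + 1) * (D / (2 * Real.pi * R) ^ 2)) ((2 * M + 1) * (D / (2 * Real.pi * R) ^ 2))
    (by
      intro I J
      have h := pair_bound (φ := fun l => ‖fourierCoeff (EE m c (-2)) l‖ ^ 2)
        (fun l => sq_nonneg _) (sum_EE hc (-2)) N I J
      refine le_trans (le_of_eq ?_) (le_trans h (le_of_eq ?_))
      · apply Finset.sum_congr rfl
        intro i _
        apply Finset.sum_congr rfl
        intro j _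
        rw [inner_FF hc]
        norm_num
      · norm_num [hD])
    (by
      intro I
      have h : ∀ k ∈ Finset.Icc (-(M : ℤ)) M, ∑ i ∈ I, ‖inner ℂ (toL (FF m c 1 i))
          (toL (FF m c 0 k))‖ ^ 2 ≤ D / (2 * Real.pi * R) ^ 2 := by
        intro k hk
        rw [Finset.mem_Icc] at hk
        have h := tail_bound (φ := fun l => ‖fourierCoeff (EE m c (-1)) l‖ ^ 2)
          (fun l => sq_nonneg _) (sum_EE hc (-1)) I (fun i => (i : ℤ) - k)
          (fun i j hij => Subtype.ext (by dsimp only at hij; omega)) hR0 (by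
            intro i _
            have h1 := i.2
            have h2 : (N : ℤ) - M + 1 ≤ |(i : ℤ) - k| := by
              rw [abs_of_neg (by omega)]; omega
            rw [hR]
            exact_mod_cast h2)
        refine le_trans (le_of_eq ?_) (le_trans h (le_of_eq ?_))
        · apply Finset.sum_congr rfl
          intro i _
          rw [inner_FF hc]
          norm_num
        · norm_num [hD]
      refine le_trans (Finset.sum_le_sum h) (le_of_eq ?_)
      rw [Finset.sum_const, hK, nsmul_eq_mul]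
      push_cast
      ring)
    (by
      intro I
      have h : ∀ k ∈ Finset.Icc (-(M : ℤ)) M, ∑ i ∈ I, ‖inner ℂ (toL (FF m c (-1) i))
          (toL (FF m c 0 k))‖ ^ 2 ≤ D / (2 * Real.pi * R) ^ 2 := by
        intro k hk
        rw [Finset.mem_Icc] at hk
        have h := tail_bound (φ := fun l => ‖fourierCoeff (EE m c 1) l‖ ^ 2)
          (fun l => sq_nonneg _) (sum_EE hc 1) I (fun i => (i : ℤ) - k)
          (fun i j hij => Subtype.ext (by dsimp only at hij; omega)) hR0 (by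
            intro i _
            have h1 := i.2
            have h2 : (N : ℤ) - M + 1 ≤ |(i : ℤ) - k| := by
              rw [abs_of_pos (by omega)]; omega
            rw [hR]
            exact_mod_cast h2)
        refine le_trans (le_of_eq ?_) (le_trans h (le_of_eq ?_))
        · apply Finset.sum_congr rfl
          intro i _
          rw [inner_FF hc]
          norm_num
        · norm_num [hD]
      refine le_trans (Finset.sum_le_sum h) (le_of_eq ?_)
      rw [Finset.sum_const, hK, nsmul_eq_mul]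
      push_cast
      ring)
  have hfin : 2 * ((2 * M + 1) * (D / (2 * Real.pi * R) ^ 2) +
      (2 * M + 1) * (D / (2 * Real.pi * R) ^ 2)) +
      4 * ((4 * D) / ((2 * Real.pi) ^ 2 * (2 * N + 2))) ≤ (2 * M + 1) * (D / (N : ℝ) ^ 2) := by
    have hpi : (9 : ℝ) ≤ Real.pi ^ 2 := by nlinarith [Real.pi_gt_three]
    have e1 : D / (2 * Real.pi * R) ^ 2 ≤ D / (9 * (N : ℝ) ^ 2) := by
      apply div_le_div_of_nonneg_left hD0 (by positivity)
      have : (N : ℝ) ^ 2 ≤ (2 * R) ^ 2 := pow_le_pow_left₀ (by linarith) (by linarith) 2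
      calc 9 * (N : ℝ) ^ 2 ≤ Real.pi ^ 2 * (2 * R) ^ 2 :=
            mul_le_mul hpi this (by positivity) (by positivity)
        _ = (2 * Real.pi * R) ^ 2 := by ring
    have e2 : (4 * D) / ((2 * Real.pi) ^ 2 * (2 * N + 2)) ≤ (4 * D) / (4 * 9 * (2 * N)) := by
      apply div_le_div_of_nonneg_left (by positivity) (by positivity)
      calc 4 * 9 * (2 * (N : ℝ)) ≤ (4 * Real.pi ^ 2) * (2 * N + 2) := by
            apply mul_le_mul (by linarith) (by linarith) (by positivity) (by positivity)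
        _ = (2 * Real.pi) ^ 2 * (2 * N + 2) := by ring
    have e3 : (4 * D) / (4 * 9 * (2 * (N : ℝ))) ≤ (2 * M + 1) * (D / (18 * (N : ℝ) ^ 2)) := by
      have : (4 * D) / (4 * 9 * (2 * (N : ℝ))) = (N : ℝ) * (D / (18 * (N : ℝ) ^ 2)) := by
        field_simp
        ring
      rw [this]
      apply mul_le_mul_of_nonneg_right hMN2 (by positivity)
    have e4 : (2 * M + 1) * (D / (9 * (N : ℝ) ^ 2)) = (2 * M + 1) * (D / (N : ℝ) ^ 2) / 9 := by
      field_simp
    have e5 : (2 * M + 1) * (D / (18 * (N : ℝ) ^ 2)) = (2 * M + 1) * (D / (N : ℝ) ^ 2) / 18 := by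
      field_simp
    have e6 : 0 ≤ (2 * M + 1) * (D / (N : ℝ) ^ 2) := by positivity
    have e7 : (2 * M + 1) * (D / (2 * Real.pi * R) ^ 2) ≤ (2 * M + 1) * (D / (9 * (N : ℝ) ^ 2)) :=
      mul_le_mul_of_nonneg_left e1 (by positivity)
    linarith
  have hsum : ∑ k ∈ Finset.Icc (-(M : ℤ)) M, ‖toL (FF m c 0 k) - y k‖ ^ 2 ≤
      ∑ k ∈ Finset.Icc (-(M : ℤ)) M, D / (N : ℝ) ^ 2 := by
    refine le_trans hy3 (le_trans hfin (le_of_eq ?_))
    rw [Finset.sum_const, hK, nsmul_eq_mul]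
    push_cast
    ring
  obtain ⟨k, hk, hk2⟩ := Finset.exists_le_of_sum_le ⟨0, by
    rw [Finset.mem_Icc]; constructor <;> omega⟩ hsum
  refine ⟨k, y k, ?_, ?_, ?_, hk2⟩
  · rw [Finset.mem_Icc] at hk
    rw [abs_le]
    exact hk
  · intro i hi
    rw [← inner_FF_left hc]
    exact hy1 k ⟨i, hi⟩
  · intro i hi
    have h := hy2 k ⟨i, hi⟩
    rw [inner_FF_left hc, neg_neg] at h
    exact h

/-! ### Hardy space argument -/

theorem fourierCoeff_conj (f : 𝕋 → ℂ) (n : ℤ) :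
    fourierCoeff (fun x => conj (f x)) n = conj (fourierCoeff f (-n)) := by
  unfold fourierCoeff
  rw [← integral_conj]
  apply integral_congr_ae
  filter_upwards with x
  rw [smul_eq_mul, smul_eq_mul, map_mul, neg_neg]
  congr 1
  exact fourier_neg

/-- `exp V`. -/
noncomputable def EV (m : ℕ) (c : ℤ → ℂ) (s : ℝ) : C(𝕋, ℂ) :=
  ⟨fun x => Complex.exp (s * VV m c x), by fun_prop⟩

theorem memLp_mul (F : C(𝕋, ℂ)) {y : 𝕋 → ℂ} (hy : MemLp y 2 AddCircle.haarAddCircle) :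
    MemLp (fun x => F x * y x) 2 AddCircle.haarAddCircle := by
  refine MemLp.of_le_mul (c := ‖F‖) hy
    (F.continuous.aestronglyMeasurable.mul hy.1) (Filter.Eventually.of_forall fun x => ?_)
  rw [norm_mul]
  exact mul_le_mul_of_nonneg_right (F.norm_coe_le_norm x) (norm_nonneg _)

theorem coeff_low {m : ℕ} {c : ℤ → ℂ} {y : 𝕋 → ℂ} (hy : MemLp y 2 AddCircle.haarAddCircle) (N : ℤ)
    (h : ∀ i : ℤ, i < N → fourierCoeff (fun x => EE m c (-1) x * y x) i = 0) :
    ∀ i : ℤ, i < N → fourierCoeff (fun x => EV m c 1 x * y x) i = 0 := by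
  intro i hi
  have h1 := hardy m (bb c) N (fun x => EE m c (-1) x * y x) (memLp_mul _ hy) h i hi
  have h2 : (fun x : 𝕋 => Complex.exp (∑ k ∈ Finset.range (m + 1), bb c k * fourier (k : ℤ) x) *
      (EE m c (-1) x * y x)) = fun x => EV m c 1 x * y x := by
    funext x
    rw [← VV_add_UU, ← mul_assoc]
    congr 1
    change Complex.exp (VV m c x + UU m c x) * Complex.exp ((-1 : ℝ) * UU m c x) =
      Complex.exp ((1 : ℝ) * VV m c x)
    rw [← Complex.exp_add]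
    congr 1
    push_cast
    ring
  rw [h2] at h1
  exact h1

theorem conj_EV {m : ℕ} {c : ℤ → ℂ} (hc : ∀ k, c (-k) = conj (c k)) (a : ℝ) (x : 𝕋) :
    conj (EV m c a x) = EV m c a x := by
  change conj (Complex.exp (a * VV m c x)) = Complex.exp (a * VV m c x)
  rw [← Complex.exp_conj, map_mul, conj_VV hc, Complex.conj_ofReal]

theorem coeff_high {m : ℕ} {c : ℤ → ℂ} (hc : ∀ k, c (-k) = conj (c k)) {y : 𝕋 → ℂ}
    (hy : MemLp y 2 AddCircle.haarAddCircle) (N : ℤ)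
    (h : ∀ i : ℤ, N < i → fourierCoeff (fun x => EE m c 1 x * y x) i = 0) :
    ∀ i : ℤ, N < i → fourierCoeff (fun x => EV m c 1 x * y x) i = 0 := by
  intro i hi
  have h1 := coeff_low (m := m) (c := c) (y := fun x => conj (y x)) (MeasureTheory.MemLp.star hy)
    (-N) (by
      intro j hj
      have h2 : (fun x => EE m c (-1) x * conj (y x)) = fun x => conj (EE m c 1 x * y x) := by
        funext x
        rw [map_mul, conj_EE hc]
      rw [h2, fourierCoeff_conj, h (-j) (by omega), map_zero]) (-i) (by omega)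
  have h3 : (fun x => EV m c 1 x * conj (y x)) = fun x => conj (EV m c 1 x * y x) := by
    funext x
    rw [map_mul, conj_EV hc]
  rw [h3, fourierCoeff_conj, neg_neg] at h1
  have h4 := congrArg conj h1
  rw [Complex.conj_conj, map_zero] at h4
  exact h4

/-- an `L²` function with finitely many nonzero Fourier coefficients is a trigonometric polynomial. -/
theorem eq_trig {z : 𝕋 → ℂ} (hz : MemLp z 2 AddCircle.haarAddCircle) (S : Finset ℤ)
    (h : ∀ i ∉ S, fourierCoeff z i = 0) :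
    z =ᵐ[AddCircle.haarAddCircle] fun x => ∑ i ∈ S, fourierCoeff z i * (fourier i x : ℂ) := by
  have h1 := hasSum_fourier_series_L2 hz.toLp
  have h0 : ∀ i, fourierCoeff hz.toLp i = fourierCoeff z i := fun i => by
    rw [fourierCoeff_congr_ae hz.coeFn_toLp]
  simp_rw [h0] at h1
  have h2 : HasSum (fun i => fourierCoeff z i • fourierLp 2 i)
      (∑ i ∈ S, fourierCoeff z i • (fourierLp 2 i : Lp ℂ 2 (AddCircle.haarAddCircle : Measure 𝕋))) := by
    apply hasSum_sum_of_ne_finset_zero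
    intro i hi
    rw [h i hi, zero_smul]
  have h3 := h1.unique h2
  have h4 : (hz.toLp : 𝕋 → ℂ) =ᵐ[AddCircle.haarAddCircle]
      (∑ i ∈ S, fourierCoeff z i • (toL (fourier i)) :
        Lp ℂ 2 (AddCircle.haarAddCircle : Measure 𝕋)) := by
    rw [h3]; rfl
  have h5 : (∑ i ∈ S, fourierCoeff z i • (toL (fourier i)) :
        Lp ℂ 2 (AddCircle.haarAddCircle : Measure 𝕋)) =
      toL (∑ i ∈ S, fourierCoeff z i • (fourier i : C(𝕋, ℂ))) := by
    unfold toL
    rw [map_sum]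
    apply Finset.sum_congr rfl
    intro i _
    rw [map_smul]
  rw [h5] at h4
  filter_upwards [hz.coeFn_toLp, h4, ContinuousMap.coeFn_toLp (p := 2) (𝕜 := ℂ)
    (AddCircle.haarAddCircle : Measure 𝕋) (∑ i ∈ S, fourierCoeff z i • (fourier i : C(𝕋, ℂ)))]
    with x e1 e2 e3
  rw [← e1, e2]
  change (ContinuousMap.toLp (E := ℂ) 2 AddCircle.haarAddCircle ℂ
    (∑ i ∈ S, fourierCoeff z i • (fourier i : C(𝕋, ℂ)))) x = _
  rw [e3, ContinuousMap.coe_sum, Finset.sum_apply]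
  rfl

theorem normSq_L2 (f : Lp ℂ 2 (AddCircle.haarAddCircle : Measure 𝕋)) :
    ‖f‖ ^ 2 = ∫ x, ‖f x‖ ^ 2 ∂AddCircle.haarAddCircle := by
  have H₃ := congr_arg RCLike.re (@L2.inner_def 𝕋 ℂ ℂ _ _ _ _ _ f f)
  rw [← integral_re] at H₃
  · simp only [← norm_sq_eq_re_inner] at H₃
    exact H₃
  · exact L2.integrable_inner f f

end CompA

open CompA in
theorem compA (m : ℕ) (c : ℤ → ℂ) (hc : ∀ k, c (-k) = (starRingEnd ℂ) (c k)) (N : ℕ) (hN : 1 ≤ N) :
    ∃ g : ℤ → ℂ, ∫ t in (0 : ℝ)..1,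
      ‖Complex.exp (-∑ k ∈ Finset.Icc (-(m : ℤ)) m, c k * ee (k * t)) *
        (∑ k ∈ Finset.Icc (-((N + N / 2 : ℕ) : ℤ)) ((N + N / 2 : ℕ) : ℤ), g k * ee (k * t)) - 1‖ ^ 2
      ≤ (∑ k ∈ Finset.Icc (-(m : ℤ)) m, (2 * Real.pi * k) ^ 2 * ‖c k‖ ^ 2) / (N : ℝ) ^ 2 := by
  obtain ⟨k, y, hk, hy1, hy2, hy3⟩ := exists_good hc N hN
  have hym : MemLp (y : 𝕋 → ℂ) 2 AddCircle.haarAddCircle := Lp.memLp y
  have hlow := coeff_low (m := m) (c := c) hym (-(N : ℤ)) hy1
  have hhigh := coeff_high hc hym (N : ℤ) hy2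
  have htrig := eq_trig (memLp_mul (EV m c 1) hym) (Finset.Icc (-(N : ℤ)) N) (by
    intro i hi
    rw [Finset.mem_Icc, not_and_or, not_le, not_le] at hi
    rcases hi with hi | hi
    · exact hlow i hi
    · exact hhigh i hi)
  set p : ℤ → ℂ := fun i => fourierCoeff (fun x => EV m c 1 x * y x) i with hp
  set g : ℤ → ℂ := fun l => if l + k ∈ Finset.Icc (-(N : ℤ)) N then p (l + k) else 0 with hg
  refine ⟨g, ?_⟩
  have hgp : ∀ x : 𝕋, (∑ l ∈ Finset.Icc (-((N + N / 2 : ℕ) : ℤ)) ((N + N / 2 : ℕ) : ℤ),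
      g l * (fourier l x : ℂ)) =
      (∑ i ∈ Finset.Icc (-(N : ℤ)) N, p i * (fourier i x : ℂ)) * (fourier (-k) x : ℂ) := by
    intro x
    have e1 : ∑ l ∈ Finset.Icc (-((N + N / 2 : ℕ) : ℤ)) ((N + N / 2 : ℕ) : ℤ),
        g l * (fourier l x : ℂ) = ∑ l ∈ Finset.Icc (-(N : ℤ) - k) (N - k),
        g l * (fourier l x : ℂ) := by
      symm
      apply Finset.sum_subset
      · intro l hl
        rw [Finset.mem_Icc] at hl ⊢
        rw [abs_le] at hk
        push_cast at hk ⊢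
        constructor <;> omega
      · intro l _ hl
        have : ¬ (l + k ∈ Finset.Icc (-(N : ℤ)) N) := by
          intro h
          apply hl
          rw [Finset.mem_Icc] at h ⊢
          constructor <;> omega
        simp only [hg, if_neg this, zero_mul]
    rw [e1, Finset.sum_mul]
    refine Finset.sum_bij' (fun l _ => l + k) (fun i _ => i - k) ?_ ?_ ?_ ?_ ?_
    · intro l hl; rw [Finset.mem_Icc] at hl ⊢; constructor <;> omega
    · intro l hl; rw [Finset.mem_Icc] at hl ⊢; constructor <;> omega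
    · intro l hl; omega
    · intro l hl; omega
    · intro l hl
      have : l + k ∈ Finset.Icc (-(N : ℤ)) N := by
        rw [Finset.mem_Icc] at hl ⊢; constructor <;> omega
      simp only [hg, if_pos this]
      rw [mul_assoc, ← fourier_add]
      congr 3
      omega
  have hmain : ∫ x : 𝕋, ‖EV m c (-1) x *
      (∑ l ∈ Finset.Icc (-((N + N / 2 : ℕ) : ℤ)) ((N + N / 2 : ℕ) : ℤ),
      g l * (fourier l x : ℂ)) - 1‖ ^ 2 ∂AddCircle.haarAddCircle = ‖toL (FF m c 0 k) - y‖ ^ 2 := by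
    rw [normSq_L2]
    apply integral_congr_ae
    filter_upwards [htrig, Lp.coeFn_sub (toL (FF m c 0 k)) y,
      ContinuousMap.coeFn_toLp (p := 2) (𝕜 := ℂ)
        (AddCircle.haarAddCircle : Measure 𝕋) (FF m c 0 k)] with x h1 h2 h3
    rw [h2, Pi.sub_apply]
    change _ = ‖(ContinuousMap.toLp (E := ℂ) 2 AddCircle.haarAddCircle ℂ (FF m c 0 k)) x - y x‖ ^ 2
    rw [h3, FF_apply, EE_zero, one_mul, hgp, ← h1]
    have h4 : EV m c (-1) x * ((EV m c 1 x * y x) * (fourier (-k) x : ℂ)) =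
        y x * (fourier (-k) x : ℂ) := by
      have : EV m c (-1) x * EV m c 1 x = 1 := by
        change Complex.exp ((-1 : ℝ) * VV m c x) * Complex.exp ((1 : ℝ) * VV m c x) = 1
        rw [← Complex.exp_add, ← Complex.exp_zero]
        congr 1
        push_cast
        ring
      rw [← mul_assoc, ← mul_assoc, this, one_mul]
    rw [h4]
    have h5 : ‖(fourier (-k) x : ℂ)‖ = 1 := Circle.norm_coe _
    have h6 : (fourier k x : ℂ) * (fourier (-k) x : ℂ) = 1 := by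
      rw [← fourier_add, add_neg_cancel, fourier_zero]
    have h7 : y x * (fourier (-k) x : ℂ) - 1 = -((fourier k x : ℂ) - y x) * (fourier (-k) x : ℂ) := by
      linear_combination h6
    rw [h7, norm_mul, h5, mul_one, norm_neg]
  rw [← hmain] at hy3
  refine le_trans (le_of_eq ?_) hy3
  have h8 : ∀ t : ℝ, ‖Complex.exp (-∑ k ∈ Finset.Icc (-(m : ℤ)) m, c k * ee (k * t)) *
        (∑ k ∈ Finset.Icc (-((N + N / 2 : ℕ) : ℤ)) ((N + N / 2 : ℕ) : ℤ), g k * ee (k * t)) - 1‖ ^ 2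
      = (fun x : 𝕋 => ‖EV m c (-1) x *
      (∑ l ∈ Finset.Icc (-((N + N / 2 : ℕ) : ℤ)) ((N + N / 2 : ℕ) : ℤ),
      g l * (fourier l x : ℂ)) - 1‖ ^ 2) (t : 𝕋) := by
    intro t
    simp_rw [← fourier_eq_ee]
    have : EV m c (-1) (t : 𝕋) = Complex.exp (-∑ k ∈ Finset.Icc (-(m : ℤ)) m,
        c k * (fourier k (t : 𝕋) : ℂ)) := by
      change Complex.exp ((-1 : ℝ) * VV m c (t : 𝕋)) = _
      congr 1
      unfold VV
      rw [ContinuousMap.coe_sum, Finset.sum_apply, Complex.ofReal_neg, Complex.ofReal_one,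
        neg_one_mul]
      rfl
    rw [this]
  simp_rw [h8]
  have h9 := AddCircle.intervalIntegral_preimage (1 : ℝ) 0 (fun x : 𝕋 => ‖EV m c (-1) x *
      (∑ l ∈ Finset.Icc (-((N + N / 2 : ℕ) : ℤ)) ((N + N / 2 : ℕ) : ℤ),
      g l * (fourier l x : ℂ)) - 1‖ ^ 2)
  rw [zero_add] at h9
  rw [h9, AddCircle.integral_haarAddCircle, inv_one, one_smul]

end Pool.Agent.Helper57.BI
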