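import Pool.Agent.Helper57.BI.Assembly
import Pool.Agent.Helper21.BI.Cob
import Pool.Agent.Helper7.BI.High
import Pool.Agent.Helper44.BI.InfProd
import Pool.Agent.Helper36.BI.Limit

/-! BI-22: the core theorem for the invariant subspaces of Bishop operators (helper97). -/

open MeasureTheory Complex Filter Topology
open scoped ENNReal

namespace Pool.Agent.Helper57.BI

theorem BL_mono {r r' : ℝ} (h : r ≤ r') {φ : ℤ → ℂ} (hφ : BL r φ) : BL r' φ :=
  fun a ha hs => hφ a ha fun θ hθ => hs θ (hθ.trans h)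

theorem BL_one {r : ℝ} (h : 0 ≤ r) : BL r (fun _ => 1) := by
  intro a _ hs
  have h0 := hs 0 (by simpa using h)
  unfold sym at h0
  simpa [ee_zero] using h0

/-- bounded real products -/
theorem prod_bdd {X : Type} (G : ℕ → X → ℝ) (hG : ∀ j, ∃ K, ∀ x, |G j x| ≤ K) (J : ℕ) :
    ∃ K, ∀ x, |∏ j ∈ Finset.range J, G j x| ≤ K := by
  choose K hK using hG
  refine ⟨∏ j ∈ Finset.range J, |K j|, fun x => ?_⟩
  rw [Finset.abs_prod]
  exact Finset.prod_le_prod (fun _ _ => abs_nonneg _) fun j _ => (hK j x).trans (le_abs_self _)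

/-- the product of the orbit sequences is band limited -/
theorem BL_prod {X : Type} (T : Equiv.Perm X) (δ : ℝ) (hδ : 0 < δ) (hδ' : δ < 1 / 4)
    (G : ℕ → X → ℝ) (hG : ∀ j, ∃ K, ∀ x, |G j x| ≤ K)
    (hBL : ∀ j x, BL (δ / 2 ^ (j + 4)) (fun n : ℤ => (G j ((T ^ n) x) : ℂ))) (J : ℕ) (x : X) :
    BL (δ / 2 - δ / 2 ^ (J + 2)) (fun n : ℤ => ((∏ j ∈ Finset.range J, G j ((T ^ n) x) : ℝ) : ℂ)) := by
  induction J with
  | zero =>
    have : (fun n : ℤ => ((∏ j ∈ Finset.range 0, G j ((T ^ n) x) : ℝ) : ℂ)) = fun _ => 1 := by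
      funext n; simp
    rw [this]
    apply BL_one
    norm_num
    linarith
  | succ J ih =>
    have hp : (0 : ℝ) < 2 ^ J := by positivity
    have e : (fun n : ℤ => ((∏ j ∈ Finset.range (J + 1), G j ((T ^ n) x) : ℝ) : ℂ)) =
        fun n : ℤ => ((∏ j ∈ Finset.range J, G j ((T ^ n) x) : ℝ) : ℂ) * (G J ((T ^ n) x) : ℂ) := by
      funext n
      rw [Finset.prod_range_succ]
      push_cast
      ring
    rw [e]
    obtain ⟨K, hK⟩ := prod_bdd G hG J
    obtain ⟨K', hK'⟩ := hG J
    have h1 : δ / 2 ^ (J + 2) = δ / 2 ^ J / 4 := by rw [pow_add]; field_simp; norm_num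
    have h2 : δ / 2 ^ (J + 4) = δ / 2 ^ J / 16 := by rw [pow_add]; field_simp; norm_num
    have h3 : δ / 2 ^ (J + 1 + 2) = δ / 2 ^ J / 8 := by
      rw [show J + 1 + 2 = J + 3 by ring, pow_add]; field_simp; norm_num
    have hq : 0 < δ / 2 ^ J := by positivity
    have hq1 : δ / 2 ^ J ≤ δ := by
      apply div_le_self hδ.le
      exact one_le_pow₀ (by norm_num)
    refine BL_mul (r := δ / 2 - δ / 2 ^ (J + 2)) (r' := δ / 2 ^ (J + 4)) ?_ (by positivity) ?_ ?_
      ⟨K, fun n => ?_⟩ ⟨K', fun n => ?_⟩ ih (hBL J x)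
    · rw [h1]; linarith
    · rw [h1, h2, h3]; linarith
    · rw [h3]; linarith
    · rw [Complex.norm_real, Real.norm_eq_abs]
      exact hK _
    · rw [Complex.norm_real, Real.norm_eq_abs]
      exact hK' _

theorem sum_cob {X : Type} (T : X → X) (W : X → ℝ) (n : ℕ) (x : X) :
    ∑ k ∈ Finset.range n, (W (T (T^[k] x)) - W (T^[k] x)) = W (T^[n] x) - W x := by
  induction n with
  | zero => simp
  | succ n ih =>
    rw [Finset.sum_range_succ, ih, Function.iterate_succ_apply']
    ring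

theorem tele {X : Type} (W : ℕ → X → ℝ) (G : ℕ → X → ℝ) (J : ℕ) (x : X) :
    Real.exp (-(W 0 x)) * ∏ j ∈ Finset.range J, (Real.exp (-(W (j + 1) x - W j x)) * G j x) =
      Real.exp (-(W J x)) * ∏ j ∈ Finset.range J, G j x := by
  induction J with
  | zero => simp
  | succ J ih =>
    rw [Finset.prod_range_succ, ← mul_assoc, ih, Finset.prod_range_succ]
    have : Real.exp (-(W (J + 1) x)) = Real.exp (-(W J x)) * Real.exp (-(W (J + 1) x - W J x)) := by
      rw [← Real.exp_add]; congr 1; ring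
    rw [this]
    ring

/-- BI-22: the core theorem. -/
theorem core {X : Type} [MeasurableSpace X] (μ : Measure X) [IsProbabilityMeasure μ]
    (T : Equiv.Perm X) (hE : Ergodic T μ) (hT' : MeasurePreserving T.symm μ μ)
    (hne : ∃ s, MeasurableSet s ∧ 0 < μ s ∧ μ s < 1)
    (φ : X → ℝ) (hφm : Measurable φ) (hφ : Integrable φ μ)
    (hφ0 : ∫ x, φ x ∂μ = 0) (hφ1 : ∀ x, φ x ≤ 1) :
    ∃ f g : X → ℝ, Measurable f ∧ Measurable g ∧ MemLp f 4 μ ∧ MemLp g 4 μ ∧
      (¬ f =ᵐ[μ] 0) ∧ (¬ g =ᵐ[μ] 0) ∧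
      ∀ n : ℕ, ∫ x, Real.exp (∑ k ∈ Finset.range n, φ (T^[k] x)) * f (T^[n] x) * g x ∂μ = 0 := by
  have hT : MeasurePreserving T μ μ := hE.toMeasurePreserving
  obtain ⟨δ, hδ, hδ', Γ, hΓm, ⟨K, hK⟩, hΓ0, hΓ⟩ := exists_high μ T hE hT' hne
  -- the bound on Γ
  set L : ℝ := |K| + 1 with hL
  have hLpos : 0 < L := by positivity
  have hΓL : ∀ x, |Γ x| ≤ L := fun x => (hK x).trans (by rw [hL]; linarith [le_abs_self K])
  have hΓmem : MemLp Γ 4 μ := by
    refine MemLp.of_bound hΓm.aestronglyMeasurable L (Eventually.of_forall fun x => ?_)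
    rw [Real.norm_eq_abs]; exact hΓL x
  have hΓn : eLpNorm Γ 4 μ ≠ 0 := by
    intro h
    exact hΓ0 ((eLpNorm_eq_zero_iff hΓm.aestronglyMeasurable (by norm_num)).1 h)
  have hΓf : eLpNorm Γ 4 μ ≠ ⊤ := hΓmem.eLpNorm_ne_top
  set γ : ℝ := (eLpNorm Γ 4 μ).toReal with hγ
  have hγpos : 0 < γ := ENNReal.toReal_pos hΓn hΓf
  set η : ℝ := min (1 / 2) (γ / (2 * L)) with hη
  have hηpos : 0 < η := lt_min (by norm_num) (by positivity)
  have hη1 : η < 1 := lt_of_le_of_lt (min_le_left _ _) (by norm_num)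
  have hηL : L * η < γ := by
    calc L * η ≤ L * (γ / (2 * L)) := mul_le_mul_of_nonneg_left (min_le_right _ _) hLpos.le
      _ = γ / 2 := by field_simp
      _ < γ := by linarith
  -- the constants
  have hd : ∀ j : ℕ, 0 < δ / 2 ^ (j + 4) ∧ δ / 2 ^ (j + 4) < 1 / 2 := by
    intro j
    refine ⟨by positivity, ?_⟩
    have : δ / 2 ^ (j + 4) ≤ δ := div_le_self hδ.le (one_le_pow₀ (by norm_num))
    linarith
  choose C hC1 hC using fun j : ℕ => transfer (δ / 2 ^ (j + 4)) (hd j).1 (hd j).2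
  obtain ⟨ε, hε, hinf⟩ := inf_prod C hC1 η hηpos
  choose τ hτ hG using fun j : ℕ => hC j (ε j) (hε j)
  let t : ℕ → ℝ := fun j => 1 / 2 * min ((1 / 2) ^ j) (min (τ j) (τ (j - 1)))
  have ht0 : ∀ j, 0 < t j := by
    intro j
    refine mul_pos (by norm_num) (lt_min (by positivity) (lt_min (hτ _) (hτ _)))
  have ht1 : ∀ j, t j ≤ (1 / 2) ^ j := by
    intro j
    have h1 : min ((1 / 2 : ℝ) ^ j) (min (τ j) (τ (j - 1))) ≤ (1 / 2) ^ j := min_le_left _ _
    have h2 : (0 : ℝ) < (1 / 2) ^ j := by positivity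
    show 1 / 2 * min ((1 / 2 : ℝ) ^ j) (min (τ j) (τ (j - 1))) ≤ (1 / 2) ^ j
    linarith
  have ht2 : ∀ j, t j ≤ τ j / 2 := by
    intro j
    have h1 : min ((1 / 2 : ℝ) ^ j) (min (τ j) (τ (j - 1))) ≤ τ j :=
      (min_le_right _ _).trans (min_le_left _ _)
    show 1 / 2 * min ((1 / 2 : ℝ) ^ j) (min (τ j) (τ (j - 1))) ≤ τ j / 2
    linarith
  have ht3 : ∀ j, t (j + 1) ≤ τ j / 2 := by
    intro j
    have h1 : min ((1 / 2 : ℝ) ^ (j + 1)) (min (τ (j + 1)) (τ (j + 1 - 1))) ≤ τ j := by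
      rw [Nat.add_sub_cancel]
      exact (min_le_right _ _).trans (min_le_right _ _)
    show 1 / 2 * min ((1 / 2 : ℝ) ^ (j + 1)) (min (τ (j + 1)) (τ (j + 1 - 1))) ≤ τ j / 2
    linarith
  choose W hWm hWb hW2 hWt using fun j : ℕ =>
    coboundary μ T hE φ hφm hφ hφ0 hφ1 (t j) (ht0 j)
  have hWi : ∀ j, Integrable (fun x => W j (T x) - W j x) μ := by
    intro j
    obtain ⟨B, hB⟩ := hWb j
    refine Integrable.of_bound (((hWm j).comp hT.measurable).sub (hWm j)).aestronglyMeasurable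
      (2 * B) (Eventually.of_forall fun x => ?_)
    rw [Real.norm_eq_abs]
    have h1 := hB (T x)
    have h2 := hB x
    exact (abs_sub _ _).trans (by linarith)
  have hVτ : ∀ j, ∫ x, |(W (j + 1) (T x) - W j (T x)) - (W (j + 1) x - W j x)| ∂μ ≤ τ j := by
    intro j
    have i1 : Integrable (fun x => |φ x - (W j (T x) - W j x)|) μ := (hφ.sub (hWi j)).abs
    have i2 : Integrable (fun x => |φ x - (W (j + 1) (T x) - W (j + 1) x)|) μ :=
      (hφ.sub (hWi (j + 1))).abs
    calc ∫ x, |(W (j + 1) (T x) - W j (T x)) - (W (j + 1) x - W j x)| ∂μ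
        ≤ ∫ x, (|φ x - (W j (T x) - W j x)| + |φ x - (W (j + 1) (T x) - W (j + 1) x)|) ∂μ := by
          refine integral_mono_of_nonneg (Eventually.of_forall fun x => abs_nonneg _) (i1.add i2)
            (Eventually.of_forall fun x => ?_)
          show |(W (j + 1) (T x) - W j (T x)) - (W (j + 1) x - W j x)| ≤
            |φ x - (W j (T x) - W j x)| + |φ x - (W (j + 1) (T x) - W (j + 1) x)|
          have e : (W (j + 1) (T x) - W j (T x)) - (W (j + 1) x - W j x) =
            (φ x - (W j (T x) - W j x)) - (φ x - (W (j + 1) (T x) - W (j + 1) x)) := by ring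
          rw [e]
          exact abs_sub _ _
      _ = (∫ x, |φ x - (W j (T x) - W j x)| ∂μ) +
          ∫ x, |φ x - (W (j + 1) (T x) - W (j + 1) x)| ∂μ := integral_add i1 i2
      _ ≤ τ j := by linarith [hWt j, hWt (j + 1), ht2 j, ht3 j]
  have hVb : ∀ j, ∃ B, ∀ x, |W (j + 1) x - W j x| ≤ B := by
    intro j
    obtain ⟨B, hB⟩ := hWb j
    obtain ⟨B', hB'⟩ := hWb (j + 1)
    refine ⟨B' + B, fun x => (abs_sub _ _).trans ?_⟩
    linarith [hB x, hB' x]
  choose G hGm hGb hGBL hGC hGε using fun j : ℕ =>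
    hG j X μ T hT hT' (fun x => W (j + 1) x - W j x) ((hWm (j + 1)).sub (hWm j)) (hVb j) (hVτ j)
  have hVb' : ∀ j, ∃ B, ∀ x, |-(W (j + 1) x - W j x)| ≤ B := by
    intro j
    obtain ⟨B, hB⟩ := hVb j
    exact ⟨B, fun x => by rw [abs_neg]; exact hB x⟩
  have hVτ' : ∀ j, ∫ x, |-(W (j + 1) (T x) - W j (T x)) - -(W (j + 1) x - W j x)| ∂μ ≤ τ j := by
    intro j
    have e : (fun x => |-(W (j + 1) (T x) - W j (T x)) - -(W (j + 1) x - W j x)|) =
        fun x => |(W (j + 1) (T x) - W j (T x)) - (W (j + 1) x - W j x)| := by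
      funext x
      rw [show -(W (j + 1) (T x) - W j (T x)) - -(W (j + 1) x - W j x) =
        -((W (j + 1) (T x) - W j (T x)) - (W (j + 1) x - W j x)) by ring, abs_neg]
    rw [e]; exact hVτ j
  choose H hHm hHb hHBL hHC hHε using fun j : ℕ =>
    hG j X μ T hT hT' (fun x => -(W (j + 1) x - W j x)) ((hWm (j + 1)).sub (hWm j)).neg
      (hVb' j) (hVτ' j)
  obtain ⟨f', hf'm, hf'4, hf'lim, hf'η⟩ := hinf X μ
    (fun j x => Real.exp (-(W (j + 1) x - W j x)) * G j x)
    (fun j => (Real.measurable_exp.comp ((hWm (j + 1)).sub (hWm j)).neg).mul (hGm j)) hGC hGε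
  obtain ⟨g', hg'm, hg'4, hg'lim, hg'η⟩ := hinf X μ
    (fun j x => Real.exp (-(-(W (j + 1) x - W j x))) * H j x)
    (fun j => (Real.measurable_exp.comp ((hWm (j + 1)).sub (hWm j)).neg.neg).mul (hHm j)) hHC hHε
  obtain ⟨B0, hB0⟩ := hWb 0
  have hexpb : ∀ x, Real.exp (-(W 0 x)) ≤ Real.exp B0 := fun x =>
    Real.exp_le_exp.2 (by linarith [(abs_le.1 (hB0 x)).1])
  have hexpb' : ∀ x, Real.exp (W 0 x) ≤ Real.exp B0 := fun x =>
    Real.exp_le_exp.2 (abs_le.1 (hB0 x)).2
  -- the functions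
  let f : X → ℝ := fun x => Real.exp (-(W 0 x)) * f' x
  let g : X → ℝ := fun x => Real.exp (W 0 x) * Γ x * g' x
  have hfm : Measurable f := (Real.measurable_exp.comp (hWm 0).neg).mul hf'm
  have hgm : Measurable g := ((Real.measurable_exp.comp (hWm 0)).mul hΓm).mul hg'm
  have hf_le : ∀ (x : X) (a : ℝ), ‖Real.exp (-(W 0 x)) * a‖ ≤ Real.exp B0 * ‖a‖ := by
    intro x a
    rw [norm_mul, Real.norm_eq_abs, abs_of_pos (Real.exp_pos _)]
    exact mul_le_mul_of_nonneg_right (hexpb x) (norm_nonneg _)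
  have hg_le : ∀ (x : X) (a : ℝ), ‖Real.exp (W 0 x) * Γ x * a‖ ≤ (Real.exp B0 * L) * ‖a‖ := by
    intro x a
    rw [norm_mul, norm_mul, Real.norm_eq_abs, abs_of_pos (Real.exp_pos _), Real.norm_eq_abs]
    refine mul_le_mul_of_nonneg_right ?_ (norm_nonneg _)
    exact mul_le_mul (hexpb' x) (hΓL x) (abs_nonneg _) (Real.exp_pos _).le
  have hf4 : MemLp f 4 μ :=
    MemLp.of_le_mul (c := Real.exp B0) hf'4 hfm.aestronglyMeasurable
      (Eventually.of_forall fun x => hf_le x _)
  have hg4 : MemLp g 4 μ :=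
    MemLp.of_le_mul (c := Real.exp B0 * L) hg'4 hgm.aestronglyMeasurable
      (Eventually.of_forall fun x => hg_le x _)
  have hone : eLpNorm (fun _ : X => (1 : ℝ)) 4 μ = 1 := by
    rw [eLpNorm_const _ (by norm_num) (IsProbabilityMeasure.ne_zero μ)]
    simp
  refine ⟨f, g, hfm, hgm, hf4, hg4, ?_, ?_, ?_⟩
  · -- f is not zero
    intro h
    have h1 : f' =ᵐ[μ] 0 := by
      filter_upwards [h] with x hx
      have hx' : Real.exp (-(W 0 x)) * f' x = 0 := hx
      rcases mul_eq_zero.1 hx' with h2 | h2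
      · exact absurd h2 (Real.exp_pos _).ne'
      · exact h2
    have h2 : eLpNorm (fun x => f' x - 1) 4 μ = eLpNorm (fun _ : X => (1 : ℝ)) 4 μ := by
      rw [← eLpNorm_neg]
      refine eLpNorm_congr_ae ?_
      filter_upwards [h1] with x hx
      have hx' : f' x = 0 := hx
      show -(f' x - 1) = 1
      rw [hx']; ring
    rw [h2, hone] at hf'η
    have h3 : ENNReal.ofReal η < 1 := by
      rw [← ENNReal.ofReal_one]
      exact (ENNReal.ofReal_lt_ofReal_iff (by norm_num)).2 hη1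
    exact absurd hf'η (not_le.2 h3)
  · -- g is not zero
    intro h
    have h1 : ∀ᵐ x ∂μ, Γ x = -(Γ x * (g' x - 1)) := by
      filter_upwards [h] with x hx
      have hx' : Real.exp (W 0 x) * Γ x * g' x = 0 := hx
      have h2 : Γ x * g' x = 0 := by
        rw [mul_assoc] at hx'
        rcases mul_eq_zero.1 hx' with h2 | h2
        · exact absurd h2 (Real.exp_pos _).ne'
        · exact h2
      linear_combination h2
    have h2 : eLpNorm Γ 4 μ ≤ ENNReal.ofReal L * eLpNorm (fun x => g' x - 1) 4 μ := by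
      refine eLpNorm_le_mul_eLpNorm_of_ae_le_mul ?_ 4
      filter_upwards [h1] with x hx
      rw [hx, norm_neg, norm_mul]
      exact mul_le_mul_of_nonneg_right (by rw [Real.norm_eq_abs]; exact hΓL x) (norm_nonneg _)
    have h3 : eLpNorm Γ 4 μ ≤ ENNReal.ofReal (L * η) := by
      rw [ENNReal.ofReal_mul hLpos.le]
      exact h2.trans (mul_le_mul_right hg'η _)
    have h4 : γ ≤ L * η := by
      rw [hγ]
      exact ENNReal.toReal_le_of_le_ofReal (by positivity) h3
    linarith
  · -- the orthogonality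
    intro n
    refine limit_pass μ T hT φ hφm hφ hφ1 (fun J x => W J (T x) - W J x)
      (fun J => ((hWm J).comp hT.measurable).sub (hWm J)) hW2 hWi ?_ f g hfm hgm hf4 hg4
      (fun J x => Real.exp (-(W 0 x)) *
        ∏ j ∈ Finset.range J, (Real.exp (-(W (j + 1) x - W j x)) * G j x))
      (fun J x => Real.exp (W 0 x) * Γ x *
        ∏ j ∈ Finset.range J, (Real.exp (-(-(W (j + 1) x - W j x))) * H j x))
      (fun J => (Real.measurable_exp.comp (hWm 0).neg).mul
        (Finset.measurable_prod _ fun j _ =>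
          (Real.measurable_exp.comp ((hWm (j + 1)).sub (hWm j)).neg).mul (hGm j)))
      (fun J => ((Real.measurable_exp.comp (hWm 0)).mul hΓm).mul
        (Finset.measurable_prod _ fun j _ =>
          (Real.measurable_exp.comp ((hWm (j + 1)).sub (hWm j)).neg.neg).mul (hHm j)))
      ?_ ?_ n ?_
    · -- the coboundaries converge
      refine squeeze_zero (fun J => integral_nonneg fun x => abs_nonneg _)
        (fun J => (hWt J).trans (ht1 J)) ?_
      exact tendsto_pow_atTop_nhds_zero_of_lt_one (by norm_num) (by norm_num)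
    · have h1 : Tendsto (fun J : ℕ => ENNReal.ofReal (Real.exp B0) *
          eLpNorm (fun x => (∏ j ∈ Finset.range J, (Real.exp (-(W (j + 1) x - W j x)) * G j x))
            - f' x) 4 μ) atTop (𝓝 0) := by
        have := ENNReal.Tendsto.const_mul (a := ENNReal.ofReal (Real.exp B0)) hf'lim
          (Or.inr ENNReal.ofReal_ne_top)
        simpa using this
      refine tendsto_of_tendsto_of_tendsto_of_le_of_le tendsto_const_nhds h1
        (fun _ => zero_le) fun J => ?_
      refine eLpNorm_le_mul_eLpNorm_of_ae_le_mul (Eventually.of_forall fun x => ?_) 4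
      have e : Real.exp (-(W 0 x)) *
          (∏ j ∈ Finset.range J, (Real.exp (-(W (j + 1) x - W j x)) * G j x)) - f x =
          Real.exp (-(W 0 x)) *
            ((∏ j ∈ Finset.range J, (Real.exp (-(W (j + 1) x - W j x)) * G j x)) - f' x) := by
        show _ - Real.exp (-(W 0 x)) * f' x = _
        ring
      rw [e]
      exact hf_le x _
    · have h1 : Tendsto (fun J : ℕ => ENNReal.ofReal (Real.exp B0 * L) *
          eLpNorm (fun x => (∏ j ∈ Finset.range J,
            (Real.exp (-(-(W (j + 1) x - W j x))) * H j x)) - g' x) 4 μ) atTop (𝓝 0) := by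
        have := ENNReal.Tendsto.const_mul (a := ENNReal.ofReal (Real.exp B0 * L)) hg'lim
          (Or.inr ENNReal.ofReal_ne_top)
        simpa using this
      refine tendsto_of_tendsto_of_tendsto_of_le_of_le tendsto_const_nhds h1
        (fun _ => zero_le) fun J => ?_
      refine eLpNorm_le_mul_eLpNorm_of_ae_le_mul (Eventually.of_forall fun x => ?_) 4
      have e : Real.exp (W 0 x) * Γ x *
          (∏ j ∈ Finset.range J, (Real.exp (-(-(W (j + 1) x - W j x))) * H j x)) - g x =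
          Real.exp (W 0 x) * Γ x *
            ((∏ j ∈ Finset.range J, (Real.exp (-(-(W (j + 1) x - W j x))) * H j x)) - g' x) := by
        show _ - Real.exp (W 0 x) * Γ x * g' x = _
        ring
      rw [e]
      exact hg_le x _
    · -- the partial products are orthogonal
      intro J
      have e : (fun x => Real.exp (∑ k ∈ Finset.range n, (W J (T (T^[k] x)) - W J (T^[k] x))) *
          (Real.exp (-(W 0 (T^[n] x))) * ∏ j ∈ Finset.range J,
            (Real.exp (-(W (j + 1) (T^[n] x) - W j (T^[n] x))) * G j (T^[n] x))) *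
          (Real.exp (W 0 x) * Γ x *
            ∏ j ∈ Finset.range J, (Real.exp (-(-(W (j + 1) x - W j x))) * H j x))) =
          fun x => ((∏ j ∈ Finset.range J, G j (T^[n] x)) * ∏ j ∈ Finset.range J, H j x) * Γ x := by
        funext x
        rw [sum_cob (fun y => T y) (W J) n x, tele W G J (T^[n] x)]
        have h2 := tele (fun j y => -(W j y)) H J x
        have e2 : ∀ j, -(-(W (j + 1) x) - -(W j x)) = -(-(W (j + 1) x - W j x)) := fun j => by ring
        simp only [e2, neg_neg] at h2 ⊢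
        have h3 : Real.exp (W 0 x) * Γ x *
            (∏ j ∈ Finset.range J, (Real.exp (W (j + 1) x - W j x) * H j x)) =
            Γ x * (Real.exp (W J x) * ∏ j ∈ Finset.range J, H j x) := by
          rw [← h2]; ring
        rw [h3]
        have h4 : Real.exp (W J (T^[n] x) - W J x) * Real.exp (-(W J (T^[n] x))) *
            Real.exp (W J x) = 1 := by
          rw [← Real.exp_add, ← Real.exp_add]
          rw [show W J (T^[n] x) - W J x + -(W J (T^[n] x)) + W J x = 0 by ring, Real.exp_zero]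
        linear_combination ((∏ j ∈ Finset.range J, G j (T^[n] x)) *
          (∏ j ∈ Finset.range J, H j x) * Γ x) * h4
      have e' := congrArg (fun F : X → ℝ => ∫ x, F x ∂μ) e
      refine Eq.trans e' ?_
      show ∫ x, ((∏ j ∈ Finset.range J, G j (T^[n] x)) * ∏ j ∈ Finset.range J, H j x) * Γ x ∂μ = 0
      obtain ⟨KG, hKG⟩ := prod_bdd G hGb J
      obtain ⟨KH, hKH⟩ := prod_bdd H hHb J
      refine hΓ (fun x => (∏ j ∈ Finset.range J, G j (T^[n] x)) * ∏ j ∈ Finset.range J, H j x)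
        ?_ ⟨KG * KH, fun x => ?_⟩ fun x => ?_
      · refine Measurable.mul ?_ (Finset.measurable_prod _ fun j _ => hHm j)
        exact Finset.measurable_prod _ fun j _ => (hGm j).comp (hT.measurable.iterate n)
      · rw [abs_mul]
        exact mul_le_mul (hKG _) (hKH _) (abs_nonneg _) ((abs_nonneg _).trans (hKG x))
      · have b1 := BL_prod T δ hδ hδ' G hGb hGBL J ((T ^ (n : ℤ)) x)
        have b2 := BL_prod T δ hδ hδ' H hHb hHBL J x
        have e1 : ∀ m : ℤ, T^[n] ((T ^ m) x) = (T ^ m) ((T ^ (n : ℤ)) x) := by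
          intro m
          have : T^[n] ((T ^ m) x) = (T ^ (n : ℤ)) ((T ^ m) x) := by
            rw [zpow_natCast, Equiv.Perm.iterate_eq_pow]
          rw [this, ← Equiv.Perm.mul_apply, ← Equiv.Perm.mul_apply, ← zpow_add, ← zpow_add,
            add_comm]
        have e3 : (fun m : ℤ => (((∏ j ∈ Finset.range J, G j (T^[n] ((T ^ m) x))) *
            ∏ j ∈ Finset.range J, H j ((T ^ m) x) : ℝ) : ℂ)) =
            fun m : ℤ => ((∏ j ∈ Finset.range J, G j ((T ^ m) ((T ^ (n : ℤ)) x)) : ℝ) : ℂ) *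
              ((∏ j ∈ Finset.range J, H j ((T ^ m) x) : ℝ) : ℂ) := by
          funext m
          rw [e1 m]
          push_cast
          ring
        rw [e3]
        have hq : 0 < δ / 2 ^ (J + 2) := by positivity
        have hq1 : δ / 2 ^ (J + 2) ≤ δ / 4 := by
          apply div_le_div_of_nonneg_left hδ.le (by norm_num)
          rw [pow_add]
          have : (1 : ℝ) ≤ 2 ^ J := one_le_pow₀ (by norm_num)
          linarith
        refine BL_mul (r := δ / 2 - δ / 2 ^ (J + 2)) (r' := δ / 2 - δ / 2 ^ (J + 2)) (r'' := δ)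
          (by linarith) (by linarith) (by linarith) (by linarith)
          ⟨KG, fun m => ?_⟩ ⟨KH, fun m => ?_⟩ b1 b2
        · rw [Complex.norm_real, Real.norm_eq_abs]
          exact hKG _
        · rw [Complex.norm_real, Real.norm_eq_abs]
          exact hKH _

end Pool.Agent.Helper57.BI
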