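import Mathlib

/-! Bishop operators have nontrivial invariant subspaces: common definitions.
`ee x = exp(2 pi i x)`; `sym a` is the symbol of a summable two-sided sequence; `BL r φ` says that the
(bounded) sequence `φ` annihilates every summable sequence whose symbol vanishes on `[-r, r]`,
that is, `φ` has its spectrum in `[-r, r]`. -/

namespace Pool.Agent.Helper57.BI

open Complex

/-- `ee x = exp (2 pi i x)`. -/
noncomputable def ee (x : ℝ) : ℂ := Complex.exp (2 * Real.pi * x * Complex.I)

theorem ee_zero : ee 0 = 1 := by simp [ee]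

theorem ee_add (x y : ℝ) : ee (x + y) = ee x * ee y := by
  unfold ee; rw [← Complex.exp_add]; congr 1; push_cast; ring

theorem ee_neg (x : ℝ) : ee (-x) = (starRingEnd ℂ) (ee x) := by
  unfold ee
  rw [← Complex.exp_conj]
  congr 1
  rw [map_mul, map_mul, map_mul, Complex.conj_I, Complex.conj_ofReal, Complex.conj_ofReal,
    Complex.conj_ofNat]
  push_cast
  ring

theorem norm_ee (x : ℝ) : ‖ee x‖ = 1 := by
  unfold ee
  have : (2 * Real.pi * x * Complex.I : ℂ) = ((2 * Real.pi * x : ℝ) : ℂ) * Complex.I := by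
    push_cast; ring
  rw [this, Complex.norm_exp_ofReal_mul_I]

theorem ee_ne_zero (x : ℝ) : ee x ≠ 0 := Complex.exp_ne_zero _

theorem ee_int (n : ℤ) : ee n = 1 := by
  unfold ee
  rw [Complex.exp_eq_one_iff]
  exact ⟨n, by push_cast; ring⟩

theorem ee_add_int (x : ℝ) (n : ℤ) : ee (x + n) = ee x := by
  rw [ee_add, ee_int, mul_one]

theorem continuous_ee : Continuous ee := by
  unfold ee; fun_prop

theorem measurable_ee : Measurable ee := continuous_ee.measurable

/-- Relation with Mathlib's `fourier`. -/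
theorem fourier_eq_ee (n : ℤ) (x : ℝ) :
    (fourier n (x : AddCircle (1 : ℝ)) : ℂ) = ee (n * x) := by
  rw [fourier_coe_apply]
  unfold ee
  congr 1
  push_cast
  ring

/-- The symbol of a two-sided sequence. -/
noncomputable def sym (a : ℤ → ℂ) (θ : ℝ) : ℂ := ∑' l : ℤ, a l * ee (l * θ)

/-- `BL r φ`: the spectrum of the sequence `φ` lies in `[-r, r]`. -/
def BL (r : ℝ) (φ : ℤ → ℂ) : Prop :=
  ∀ a : ℤ → ℂ, Summable a → (∀ θ : ℝ, |θ| ≤ r → sym a θ = 0) → ∑' l : ℤ, a l * φ l = 0

end Pool.Agent.Helper57.BI
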