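import Pool.Agent.Helper57.BI.Defs

open MeasureTheory Complex Filter Topology

namespace Pool.Agent.Helper57.BI

theorem integral_ee_int (m : ℤ) :
    ∫ θ in (-(1 / 2) : ℝ)..(1 / 2), ee (m * θ) = if m = 0 then 1 else 0 := by
  by_cases hm : m = 0
  · subst hm
    simp [ee]
    norm_num
  · rw [if_neg hm]
    have hc : (2 * Real.pi * m * Complex.I : ℂ) ≠ 0 := by
      have : (m : ℂ) ≠ 0 := by exact_mod_cast hm
      have h2 : (Real.pi : ℂ) ≠ 0 := by exact_mod_cast Real.pi_ne_zero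
      simp [this, h2]
    have h1 : ∀ θ : ℝ, ee (m * θ) = Complex.exp ((2 * Real.pi * m * Complex.I : ℂ) * θ) := by
      intro θ; unfold ee; congr 1; push_cast; ring
    simp_rw [h1]
    rw [integral_exp_mul_complex hc]
    have h2 : Complex.exp ((2 * Real.pi * m * Complex.I : ℂ) * ((1 / 2 : ℝ) : ℂ)) =
        Complex.exp ((2 * Real.pi * m * Complex.I : ℂ) * ((-(1 / 2) : ℝ) : ℂ)) := by
      have : (2 * Real.pi * m * Complex.I : ℂ) * ((1 / 2 : ℝ) : ℂ) =
          (2 * Real.pi * m * Complex.I : ℂ) * ((-(1 / 2) : ℝ) : ℂ) +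
            m * (2 * Real.pi * Complex.I) := by push_cast; ring
      rw [this, Complex.exp_add, Complex.exp_int_mul_two_pi_mul_I, mul_one]
    rw [h2, sub_self, zero_div]

theorem sym_inv {a : ℤ → ℂ} (ha : Summable a) (l : ℤ) :
    a l = ∫ θ in (-(1 / 2) : ℝ)..(1 / 2), sym a θ * ee (-(l * θ)) := by
  have h1 : ∀ k : ℤ, ∫ θ in (-(1 / 2) : ℝ)..(1 / 2), a k * ee (k * θ) * ee (-(l * θ)) =
      if k = l then a k else 0 := by
    intro k
    have : ∀ θ : ℝ, a k * ee (k * θ) * ee (-(l * θ)) = a k * ee (((k - l : ℤ) : ℝ) * θ) := by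
      intro θ
      rw [mul_assoc, ← ee_add]
      congr 2
      push_cast; ring
    simp_rw [this]
    rw [intervalIntegral.integral_const_mul, integral_ee_int]
    by_cases hk : k = l
    · subst hk; simp
    · rw [if_neg (sub_ne_zero.mpr hk), if_neg hk, mul_zero]
  have h2 := intervalIntegral.hasSum_intervalIntegral_of_summable_norm
    (a := (-(1 / 2) : ℝ)) (b := (1 / 2 : ℝ))
    (f := fun k : ℤ => (⟨fun θ : ℝ => a k * ee (k * θ) * ee (-(l * θ)), by
      have := continuous_ee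
      fun_prop⟩ : C(ℝ, ℂ))) (by
      refine Summable.of_nonneg_of_le (fun _ => norm_nonneg _) (fun k => ?_) ha.norm
      rw [ContinuousMap.norm_le _ (norm_nonneg _)]
      intro x
      change ‖a k * ee (k * (x : ℝ)) * ee (-(l * (x : ℝ)))‖ ≤ ‖a k‖
      rw [norm_mul, norm_mul, norm_ee, norm_ee, mul_one, mul_one])
  have h3 : HasSum (fun k : ℤ => if k = l then a k else 0)
      (∫ θ in (-(1 / 2) : ℝ)..(1 / 2), sym a θ * ee (-(l * θ))) := by
    have e2 : (∫ θ in (-(1 / 2) : ℝ)..(1 / 2), sym a θ * ee (-(l * θ))) =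
        ∫ θ in (-(1 / 2) : ℝ)..(1 / 2), ∑' k : ℤ, a k * ee (k * θ) * ee (-(l * θ)) := by
      apply intervalIntegral.integral_congr
      intro θ _
      dsimp only
      unfold sym
      rw [← tsum_mul_right]
    have e1 : (fun k : ℤ => if k = l then a k else 0) = fun k : ℤ =>
        ∫ θ in (-(1 / 2) : ℝ)..(1 / 2), a k * ee (k * θ) * ee (-(l * θ)) :=
      funext fun k => (h1 k).symm
    rw [e2, e1]
    exact h2
  have h4 : HasSum (fun k : ℤ => if k = l then a k else 0) (a l) := by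
    convert hasSum_ite_eq l (a l) using 2 with k
    by_cases hk : k = l
    · subst hk; simp
    · simp [hk]
  exact h4.unique h3

theorem sym_inj {a : ℤ → ℂ} (ha : Summable a) (h : ∀ θ : ℝ, |θ| ≤ 1 / 2 → sym a θ = 0) (l : ℤ) :
    a l = 0 := by
  rw [sym_inv ha l]
  rw [intervalIntegral.integral_congr (g := fun _ => (0 : ℂ))]
  · simp
  · intro θ hθ
    rw [Set.uIcc_of_le (by norm_num)] at hθ
    dsimp only
    rw [h θ (abs_le.mpr ⟨by linarith [hθ.1], hθ.2⟩), zero_mul]

end Pool.Agent.Helper57.BI
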